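import Mathlib

/-!
# Tropical polynomials: orbits, the dichotomy and the exceptional null sets
-/

set_option autoImplicit false

open Filter Topology MeasureTheory Pointwise

set_option linter.unusedSectionVars false

namespace Pool.Agent.TH639.LS

variable {ι : Type*} [Fintype ι] [Nonempty ι] (e : ι → ℕ)

/-- the tropical polynomial `x ↦ max (α i + e i x)` -/
noncomputable def F (α : ι → ℝ) (x : ℝ) : ℝ :=
  Finset.univ.sup' Finset.univ_nonempty (fun i => α i + (e i : ℝ) * x)

/-- the point where the lines of index `i` and `j` meet -/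
noncomputable def xx (i j : ι) (α : ι → ℝ) : ℝ := (α i - α j) / ((e j : ℝ) - (e i : ℝ))

variable {e}

lemma le_F (α : ι → ℝ) (x : ℝ) (i : ι) : α i + (e i : ℝ) * x ≤ F e α x :=
  Finset.le_sup' (fun i => α i + (e i : ℝ) * x) (Finset.mem_univ i)

lemma exists_eq_F (α : ι → ℝ) (x : ℝ) : ∃ i, F e α x = α i + (e i : ℝ) * x := by
  obtain ⟨i, -, h⟩ := Finset.exists_mem_eq_sup' (s := (Finset.univ : Finset ι))
    Finset.univ_nonempty (fun i => α i + (e i : ℝ) * x)
  exact ⟨i, h⟩

lemma F_lt {α : ι → ℝ} {x c : ℝ} (h : ∀ i, α i + (e i : ℝ) * x < c) : F e α x < c := by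
  obtain ⟨i, hi⟩ := exists_eq_F (e := e) α x
  rw [hi]; exact h i

lemma F_le {α : ι → ℝ} {x c : ℝ} (h : ∀ i, α i + (e i : ℝ) * x ≤ c) : F e α x ≤ c := by
  obtain ⟨i, hi⟩ := exists_eq_F (e := e) α x
  rw [hi]; exact h i

lemma F_mono (α : ι → ℝ) {x y : ℝ} (h : x ≤ y) : F e α x ≤ F e α y := by
  refine F_le fun i => le_trans ?_ (le_F α y i)
  have := mul_le_mul_of_nonneg_left h (Nat.cast_nonneg (α := ℝ) (e i))
  linarith

lemma F_shift (α : ι → ℝ) (x s : ℝ) : F e (fun i => α i + s) x = F e α x + s := by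
  apply le_antisymm
  · refine F_le fun i => ?_
    have := le_F (e := e) α x i
    linarith
  · obtain ⟨i, hi⟩ := exists_eq_F (e := e) α x
    have := le_F (e := e) (fun i => α i + s) x i
    rw [hi]
    linarith

lemma continuous_F : Continuous (fun p : (ι → ℝ) × ℝ => F e p.1 p.2) := by
  unfold F
  apply Continuous.finset_sup'_apply
  intro i _
  fun_prop

lemma continuous_F_right (α : ι → ℝ) : Continuous (F e α) :=
  continuous_F.comp (continuous_const.prodMk continuous_id)

lemma continuous_orbit {Y : (ι → ℝ) → ℝ} (hY : Continuous Y) (m : ℕ) :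
    Continuous (fun α => (F e α)^[m] (Y α)) := by
  induction m with
  | zero => simpa using hY
  | succ m ih =>
    simp only [Function.iterate_succ_apply']
    exact continuous_F.comp (continuous_id.prodMk ih)

lemma continuous_xx (i j : ι) : Continuous (xx e i j) := by
  unfold xx
  fun_prop

/-- a set which is disjoint from all its translates in the direction `v` is a null set -/
lemma null_of_translate {Z : Set (ι → ℝ)} (hZ : MeasurableSet Z) (v : ι → ℝ)
    (h : ∀ α ∈ Z, ∀ s : ℝ, 0 < s → α + s • v ∉ Z) : volume Z = 0 := by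
  have hu : Bornology.IsBounded (Set.range fun n : ℕ => (1 / ((n : ℝ) + 1)) • v) := by
    have : Tendsto (fun n : ℕ => (1 / ((n : ℝ) + 1)) • v) atTop (𝓝 ((0 : ℝ) • v)) :=
      tendsto_one_div_add_atTop_nhds_zero_nat.smul_const v
    exact Metric.isBounded_range_of_tendsto _ this
  apply Measure.addHaar_eq_zero_of_disjoint_translates volume _ hu _ hZ
  have key : ∀ m n : ℕ, m < n →
      Disjoint ({(1 / ((m : ℝ) + 1)) • v} + Z) ({(1 / ((n : ℝ) + 1)) • v} + Z) := by
    intro m n hmn
    rw [Set.disjoint_left]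
    rintro y hy1 hy2
    rw [Set.singleton_add, Set.mem_image] at hy1 hy2
    obtain ⟨a, ha, ha'⟩ := hy1
    obtain ⟨b, hb, hb'⟩ := hy2
    have hs : 0 < 1 / ((m : ℝ) + 1) - 1 / ((n : ℝ) + 1) := by
      rw [sub_pos]
      apply one_div_lt_one_div_of_lt (by positivity)
      have : (m : ℝ) < n := by exact_mod_cast hmn
      linarith
    apply h a ha _ hs
    have : a + (1 / ((m : ℝ) + 1) - 1 / ((n : ℝ) + 1)) • v = b := by
      have h1 : (1 / ((m : ℝ) + 1)) • v + a = (1 / ((n : ℝ) + 1)) • v + b := by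
        rw [ha', hb']
      rw [sub_smul]
      have : b = (1 / ((m : ℝ) + 1)) • v + a - (1 / ((n : ℝ) + 1)) • v := by
        rw [h1]; abel
      rw [this]; abel
    rw [this]; exact hb
  intro m n hmn
  rcases lt_or_gt_of_ne hmn with h1 | h1
  · exact key m n h1
  · exact (key n m h1).symm

lemma xx_shift (i j : ι) (α : ι → ℝ) (s : ℝ) : xx e i j (fun k => α k + s) = xx e i j α := by
  unfold xx; congr 1; ring

/-- three lines do not meet in a point, generically -/
lemma null_collinear (i j k : ι) (hjk : e j ≠ e k) (hij : i ≠ j) (hik : i ≠ k) :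
    volume {α : ι → ℝ | α i * ((e j : ℝ) - e k) + α j * ((e k : ℝ) - e i) +
      α k * ((e i : ℝ) - e j) = 0} = 0 := by
  classical
  apply null_of_translate (v := Pi.single i 1)
  · apply IsClosed.measurableSet
    apply isClosed_eq <;> fun_prop
  · intro α hα s hs hcon
    simp only [Set.mem_ofPred_eq, Pi.add_apply, Pi.smul_apply, smul_eq_mul, Pi.single_eq_same,
      Pi.single_eq_of_ne hij.symm, Pi.single_eq_of_ne hik.symm, mul_one, mul_zero,
      add_zero] at hα hcon
    have h1 : s * ((e j : ℝ) - e k) = 0 := by linarith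
    rcases mul_eq_zero.1 h1 with h2 | h2
    · exact hs.ne' h2
    · apply hjk
      have : (e j : ℝ) = e k := by linarith
      exact_mod_cast this

/-- a start value moves at unit speed with the coefficients -/
def IsStart (Y : (ι → ℝ) → ℝ) : Prop :=
  Continuous Y ∧ ∀ (α : ι → ℝ) (s : ℝ), Y (fun k => α k + s) = Y α + s

lemma isStart_coeff (i : ι) : IsStart (fun α : ι → ℝ => α i) :=
  ⟨continuous_apply i, fun _ _ => rfl⟩

lemma isStart_crit (i j : ι) : IsStart (fun α : ι → ℝ => F e α (xx e i j α)) := by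
  refine ⟨continuous_F.comp (continuous_id.prodMk (continuous_xx i j)), fun α s => ?_⟩
  simp only [xx_shift, F_shift]

lemma orbit_shift {Y : (ι → ℝ) → ℝ} (hY : IsStart Y) (α : ι → ℝ) {s : ℝ} (hs : 0 ≤ s) (m : ℕ) :
    (F e α)^[m] (Y α) + s ≤ (F e (fun k => α k + s))^[m] (Y (fun k => α k + s)) := by
  induction m with
  | zero => simp only [Function.iterate_zero, id_eq]; rw [hY.2]
  | succ m ih =>
    simp only [Function.iterate_succ_apply']
    rw [F_shift]
    have h1 : F e α ((F e α)^[m] (Y α)) ≤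
        F e α ((F e (fun k => α k + s))^[m] (Y (fun k => α k + s))) :=
      F_mono α (by linarith)
    linarith

lemma null_orbit {Y : (ι → ℝ) → ℝ} (hY : IsStart Y) (m : ℕ) (i j : ι) :
    volume {α : ι → ℝ | (F e α)^[m] (Y α) = xx e i j α} = 0 := by
  apply null_of_translate (v := fun _ => 1)
  · apply IsClosed.measurableSet
    exact isClosed_eq (continuous_orbit hY.1 m) (continuous_xx i j)
  · intro α hα s hs hcon
    have e1 : α + s • (fun _ : ι => (1 : ℝ)) = fun k => α k + s := by
      funext k; simp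
    rw [e1, Set.mem_ofPred_eq, xx_shift] at hcon
    have h1 := orbit_shift (e := e) hY α hs.le m
    rw [Set.mem_ofPred_eq] at hα
    rw [hcon, hα] at h1
    linarith

lemma null_fix {Y : (ι → ℝ) → ℝ} (hY : IsStart Y) :
    volume {α : ι → ℝ | F e α (Y α) = Y α ∧
      ∃ k, 1 ≤ e k ∧ F e α (Y α) ≤ α k + (e k : ℝ) * Y α} = 0 := by
  have hc := hY.1
  have hc2 : Continuous (fun α : ι → ℝ => F e α (Y α)) :=
    continuous_F.comp (continuous_id.prodMk hc)
  apply null_of_translate (v := fun _ => 1)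
  · have : {α : ι → ℝ | F e α (Y α) = Y α ∧
      ∃ k, 1 ≤ e k ∧ F e α (Y α) ≤ α k + (e k : ℝ) * Y α} =
      {α : ι → ℝ | F e α (Y α) = Y α} ∩
        ⋃ k : ι, {α : ι → ℝ | 1 ≤ e k ∧ F e α (Y α) ≤ α k + (e k : ℝ) * Y α} := by
      ext α; simp
    rw [this]
    apply MeasurableSet.inter (isClosed_eq hc2 hc).measurableSet
    apply MeasurableSet.iUnion
    intro k
    by_cases hk : 1 ≤ e k
    · simp only [hk, true_and]
      apply IsClosed.measurableSet
      apply isClosed_le hc2
      fun_prop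
    · simp [hk]
  · rintro α ⟨h1, k, hk, h2⟩ s hs hcon
    have e1 : α + s • (fun _ : ι => (1 : ℝ)) = fun k => α k + s := by
      funext k; simp
    rw [e1, Set.mem_ofPred_eq, hY.2, F_shift] at hcon
    have h3 := le_F (e := e) α (Y α + s) k
    have h4 : (1 : ℝ) ≤ e k := by exact_mod_cast hk
    nlinarith [hcon.1]

/-- the dichotomy: a trap or escape -/
lemma dichotomy {α : ι → ℝ} {y : ℝ}
    (h1 : ¬ (F e α y = y ∧ ∃ k, 1 ≤ e k ∧ F e α y ≤ α k + (e k : ℝ) * y))
    (h2 : ∀ k₀, e k₀ = 0 → ¬ (F e α (α k₀) = α k₀ ∧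
      ∃ k, 1 ≤ e k ∧ F e α (α k₀) ≤ α k + (e k : ℝ) * α k₀)) :
    (∃ (m : ℕ) (X : ℝ), (F e α)^[m] y < X ∧ F e α X < X) ∨
      Tendsto (fun m : ℕ => (F e α)^[m] y) atTop atTop := by
  -- the main case
  have main : ∀ y : ℝ, ¬ (F e α y = y ∧ ∃ k, 1 ≤ e k ∧ F e α y ≤ α k + (e k : ℝ) * y) →
      (∃ k, 1 ≤ e k ∧ F e α y ≤ α k + (e k : ℝ) * y) →
      (∃ X : ℝ, y < X ∧ F e α X < X) ∨ Tendsto (fun m : ℕ => (F e α)^[m] y) atTop atTop := by
    rintro y hy ⟨k, hk, hky⟩
    rcases lt_trichotomy (F e α y) y with h | h | h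
    · left
      have hcont : ContinuousAt (fun x => F e α x - x) y :=
        ((continuous_F_right α).sub continuous_id).continuousAt
      have hev : ∀ᶠ x in 𝓝 y, F e α x - x < 0 :=
        hcont.eventually_lt continuousAt_const (by linarith)
      have hev2 : ∀ᶠ x in 𝓝[>] y, F e α x - x < 0 := hev.filter_mono nhdsWithin_le_nhds
      obtain ⟨x, hx1, hx2⟩ := (hev2.and self_mem_nhdsWithin).exists
      exact ⟨x, hx2, by linarith⟩
    · exact absurd ⟨h, k, hk, hky⟩ hy
    · right
      have hk' : (1 : ℝ) ≤ e k := by exact_mod_cast hk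
      have hstep : ∀ x, y ≤ x → x + (F e α y - y) ≤ F e α x := by
        intro x hx
        have h3 := le_F (e := e) α x k
        nlinarith
      have hall : ∀ m : ℕ, y + m * (F e α y - y) ≤ (F e α)^[m] y := by
        intro m
        induction m with
        | zero => simp
        | succ m ih =>
          rw [Function.iterate_succ_apply']
          have h5 : y ≤ (F e α)^[m] y := by
            refine le_trans ?_ ih
            have : 0 ≤ (m : ℝ) * (F e α y - y) := by
              apply mul_nonneg (Nat.cast_nonneg m); linarith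
            linarith
          have h6 := hstep _ h5
          push_cast
          linarith
      refine tendsto_atTop_mono hall ?_
      apply tendsto_atTop_add_const_left
      exact Tendsto.atTop_mul_const (by linarith) tendsto_natCast_atTop_atTop
  by_cases hA : ∃ k, 1 ≤ e k ∧ F e α y ≤ α k + (e k : ℝ) * y
  · rcases main y h1 hA with ⟨X, hX⟩ | h
    · exact Or.inl ⟨0, X, hX⟩
    · exact Or.inr h
  · -- only the constant term attains the maximum
    obtain ⟨k₀, hk₀⟩ := exists_eq_F (e := e) α y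
    have he : e k₀ = 0 := by
      by_contra hne
      exact hA ⟨k₀, Nat.one_le_iff_ne_zero.2 hne, hk₀.le⟩
    rw [he] at hk₀
    simp only [Nat.cast_zero, zero_mul, add_zero] at hk₀
    by_cases hB : ∃ k, 1 ≤ e k ∧ F e α (α k₀) ≤ α k + (e k : ℝ) * α k₀
    · rcases main (α k₀) (h2 k₀ he) hB with ⟨X, hX⟩ | h
      · left
        refine ⟨1, X, ?_⟩
        rw [Function.iterate_one, hk₀]
        exact hX
      · right
        rw [← tendsto_add_atTop_iff_nat 1]
        simp only [Function.iterate_add_apply, Function.iterate_one]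
        rw [hk₀]
        exact h
    · left
      push Not at hB
      -- `F (α k₀) = α k₀` and all the other terms are smaller
      have hF : F e α (α k₀) = α k₀ := by
        obtain ⟨l, hl⟩ := exists_eq_F (e := e) α (α k₀)
        have hel : e l = 0 := by
          by_contra hne
          have := hB l (Nat.one_le_iff_ne_zero.2 hne)
          rw [hl] at this
          exact lt_irrefl _ this
        have h3 := le_F (e := e) α y l
        have h4 := le_F (e := e) α (α k₀) k₀
        rw [hel] at hl h3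
        rw [he] at h4
        simp only [Nat.cast_zero, zero_mul, add_zero] at hl h3 h4
        rw [hl] at h4 ⊢
        rw [hk₀] at h3
        exact le_antisymm h3 h4
      have hev : ∀ᶠ x in 𝓝 (α k₀), ∀ k, 1 ≤ e k → α k + (e k : ℝ) * x < x := by
        rw [Filter.eventually_all]
        intro k
        by_cases hk : 1 ≤ e k
        · have hc : ContinuousAt (fun x : ℝ => α k + (e k : ℝ) * x) (α k₀) := by fun_prop
          have h3 : α k + (e k : ℝ) * α k₀ < α k₀ := by
            have := hB k hk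
            rwa [hF] at this
          have := hc.eventually_lt continuousAt_id (by simpa using h3)
          filter_upwards [this] with x hx _
          simpa using hx
        · exact Filter.Eventually.of_forall fun x h => absurd h hk
      have hev2 := hev.filter_mono (nhdsWithin_le_nhds (s := Set.Ioi (α k₀)))
      obtain ⟨X, hX1, hX2⟩ := (hev2.and self_mem_nhdsWithin).exists
      refine ⟨1, X, by rw [Function.iterate_one, hk₀]; exact hX2, F_lt fun k => ?_⟩
      by_cases hk : 1 ≤ e k
      · exact hX1 k hk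
      · have hk0 : e k = 0 := by omega
        have h3 := le_F (e := e) α y k
        rw [hk0] at h3 ⊢
        simp only [Nat.cast_zero, zero_mul, add_zero] at h3 ⊢
        rw [hk₀] at h3
        exact lt_of_le_of_lt h3 hX2

/-- the generic directions -/
structure Gen (e : ι → ℕ) (α : ι → ℝ) : Prop where
  col : ∀ i j k, i ≠ j → i ≠ k → j ≠ k → α i * ((e j : ℝ) - e k) + α j * ((e k : ℝ) - e i) +
    α k * ((e i : ℝ) - e j) ≠ 0
  c_orb : ∀ (k₀ : ι) (m : ℕ) (k l : ι), (F e α)^[m] (α k₀) ≠ xx e k l α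
  c_fix : ∀ k₀, ¬ (F e α (α k₀) = α k₀ ∧
      ∃ k, 1 ≤ e k ∧ F e α (α k₀) ≤ α k + (e k : ℝ) * α k₀)
  x_orb : ∀ (i j : ι) (m : ℕ) (k l : ι), (F e α)^[m] (F e α (xx e i j α)) ≠ xx e k l α
  x_fix : ∀ i j : ι, ¬ (F e α (F e α (xx e i j α)) = F e α (xx e i j α) ∧
      ∃ k, 1 ≤ e k ∧ F e α (F e α (xx e i j α)) ≤ α k + (e k : ℝ) * F e α (xx e i j α))

theorem ae_gen (he : Function.Injective e) : ∀ᵐ α : ι → ℝ, Gen e α := by
  have h1 : ∀ᵐ α : ι → ℝ, ∀ i j k, i ≠ j → i ≠ k → j ≠ k →
      α i * ((e j : ℝ) - e k) + α j * ((e k : ℝ) - e i) + α k * ((e i : ℝ) - e j) ≠ 0 := by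
    simp only [ae_all_iff]
    intro i j k hij hik hjk
    rw [ae_iff]
    simp only [not_not]
    exact null_collinear i j k (fun h => hjk (he h)) hij hik
  have h2 : ∀ᵐ α : ι → ℝ, ∀ (k₀ : ι) (m : ℕ) (k l : ι), (F e α)^[m] (α k₀) ≠ xx e k l α := by
    simp only [ae_all_iff]
    intro k₀ m k l
    rw [ae_iff]
    simp only [not_not]
    exact null_orbit (isStart_coeff k₀) m k l
  have h3 : ∀ᵐ α : ι → ℝ, ∀ k₀, ¬ (F e α (α k₀) = α k₀ ∧
      ∃ k, 1 ≤ e k ∧ F e α (α k₀) ≤ α k + (e k : ℝ) * α k₀) := by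
    simp only [ae_all_iff]
    intro k₀
    rw [ae_iff]
    simp only [not_not]
    exact null_fix (isStart_coeff k₀)
  have h4 : ∀ᵐ α : ι → ℝ, ∀ (i j : ι) (m : ℕ) (k l : ι),
      (F e α)^[m] (F e α (xx e i j α)) ≠ xx e k l α := by
    simp only [ae_all_iff]
    intro i j m k l
    rw [ae_iff]
    simp only [not_not]
    exact null_orbit (isStart_crit i j) m k l
  have h5 : ∀ᵐ α : ι → ℝ, ∀ i j : ι, ¬ (F e α (F e α (xx e i j α)) = F e α (xx e i j α) ∧
      ∃ k, 1 ≤ e k ∧ F e α (F e α (xx e i j α)) ≤ α k + (e k : ℝ) * F e α (xx e i j α)) := by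
    simp only [ae_all_iff]
    intro i j
    rw [ae_iff]
    simp only [not_not]
    exact null_fix (isStart_crit i j)
  filter_upwards [h1, h2, h3, h4, h5] with α a1 a2 a3 a4 a5
  exact ⟨a1, a2, a3, a4, a5⟩

end Pool.Agent.TH639.LS
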