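import Mathlib
import Pool.Agent.TH639.LS.Trop
import Pool.Agent.W751.CD.Dyn

/-!
# The tropical limit of the critical orbits
-/

set_option autoImplicit false

open Filter Topology MeasureTheory Polynomial

set_option linter.unusedSectionVars false

namespace Pool.Agent.TH639.LS

section sums

variable {Ω ι : Type*} [Fintype ι] {l : Filter Ω} {t : Ω → ℝ}

/-- `u` has the logarithmic size `v` -/
def Sz (l : Filter Ω) (t : Ω → ℝ) (u : Ω → ℂ) (v : ℝ) : Prop :=
  (∀ᶠ ω in l, u ω ≠ 0) ∧ Tendsto (fun ω => Real.log ‖u ω‖ / t ω) l (𝓝 v)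

lemma Sz.mul {u w : Ω → ℂ} {a b : ℝ} (hu : Sz l t u a) (hw : Sz l t w b) :
    Sz l t (fun ω => u ω * w ω) (a + b) := by
  refine ⟨by filter_upwards [hu.1, hw.1] with ω h1 h2 using mul_ne_zero h1 h2, ?_⟩
  refine (hu.2.add hw.2).congr' ?_
  filter_upwards [hu.1, hw.1] with ω h1 h2
  rw [norm_mul, Real.log_mul (norm_ne_zero_iff.2 h1) (norm_ne_zero_iff.2 h2), add_div]

lemma Sz.pow {u : Ω → ℂ} {a : ℝ} (hu : Sz l t u a) (n : ℕ) :
    Sz l t (fun ω => u ω ^ n) ((n : ℝ) * a) := by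
  refine ⟨by filter_upwards [hu.1] with ω h1 using pow_ne_zero _ h1, ?_⟩
  refine (hu.2.const_mul (n : ℝ)).congr ?_
  intro ω
  rw [norm_pow, Real.log_pow, mul_div_assoc]

lemma Sz.const (ht : Tendsto t l atTop) {c : ℂ} (hc : c ≠ 0) : Sz l t (fun _ => c) 0 :=
  ⟨Eventually.of_forall fun _ => hc, Tendsto.div_atTop tendsto_const_nhds ht⟩

lemma Sz.const_mul (ht : Tendsto t l atTop) {c : ℂ} (hc : c ≠ 0) {u : Ω → ℂ} {a : ℝ}
    (hu : Sz l t u a) : Sz l t (fun ω => c * u ω) a := by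
  have := (Sz.const ht hc).mul hu
  rwa [zero_add] at this

lemma Sz.ratio (ht : Tendsto t l atTop) {u w : Ω → ℂ} {a b : ℝ} (hu : Sz l t u a)
    (hw : Sz l t w b) (h : a < b) : Tendsto (fun ω => u ω / w ω) l (𝓝 0) := by
  rw [tendsto_zero_iff_norm_tendsto_zero]
  have h1 : Tendsto (fun ω => t ω * (Real.log ‖u ω‖ / t ω - Real.log ‖w ω‖ / t ω)) l atBot :=
    ht.atTop_mul_neg (by linarith : a - b < 0) (hu.2.sub hw.2)
  refine (Real.tendsto_exp_atBot.comp h1).congr' ?_
  filter_upwards [hu.1, hw.1, ht.eventually_gt_atTop 0] with ω h1 h2 h3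
  have h1' := norm_pos_iff.2 h1
  have h2' := norm_pos_iff.2 h2
  have e1 : t ω * (Real.log ‖u ω‖ / t ω - Real.log ‖w ω‖ / t ω) =
      Real.log ‖u ω‖ - Real.log ‖w ω‖ := by
    field_simp
  simp only [Function.comp]
  rw [e1, Real.exp_sub, Real.exp_log h1', Real.exp_log h2', norm_div]

lemma Sz.sum (ht : Tendsto t l atTop) {u : ι → Ω → ℂ} {m : ι} {v : ℝ} (hm : Sz l t (u m) v)
    (hk : ∀ k, k ≠ m → Tendsto (fun ω => u k ω / u m ω) l (𝓝 0)) :
    Sz l t (fun ω => ∑ k, u k ω) v := by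
  classical
  have h1 : Tendsto (fun ω => ∑ k, u k ω / u m ω) l (𝓝 (∑ k, if k = m then (1 : ℂ) else 0)) := by
    apply tendsto_finsetSum
    intro k _
    split_ifs with h
    · subst h
      refine tendsto_const_nhds.congr' ?_
      filter_upwards [hm.1] with ω h1
      rw [div_self h1]
    · exact hk k h
  simp only [Finset.sum_ite_eq', Finset.mem_univ, if_true] at h1
  have h2 : Tendsto (fun ω => Real.log ‖∑ k, u k ω / u m ω‖) l (𝓝 0) := by
    have := (h1.norm).log (by simp)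
    simpa using this
  have h3 : Sz l t (fun ω => ∑ k, u k ω / u m ω) 0 := by
    refine ⟨?_, Tendsto.div_atTop h2 ht⟩
    exact h1.eventually_ne one_ne_zero
  have h4 := hm.mul h3
  rw [add_zero] at h4
  refine ⟨?_, h4.2.congr' ?_⟩
  · filter_upwards [h4.1, hm.1] with ω h5 h6
    rwa [← Finset.sum_div, mul_div_cancel₀ _ h6] at h5
  · filter_upwards [hm.1] with ω h6
    rw [← Finset.sum_div, mul_div_cancel₀ _ h6]

end sums

section dyn

variable {Ω ι : Type*} [Fintype ι] [Nonempty ι] {e : ι → ℕ} {l : Filter Ω} {t : Ω → ℝ}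
  {a : Ω → ι → ℂ} {α : ι → ℝ}

/-- the polynomial with exponents `e i` and coefficients `a i` -/
noncomputable def Pol (e : ι → ℕ) (a : ι → ℂ) : ℂ[X] := ∑ i, C (a i) * X ^ (e i)

lemma Pol_eval (a : ι → ℂ) (z : ℂ) : (Pol e a).eval z = ∑ i, a i * z ^ (e i) := by
  simp [Pol, eval_finsetSum]

lemma Pol_deriv (a : ι → ℂ) (z : ℂ) :
    z * (derivative (Pol e a)).eval z = ∑ i, (e i : ℂ) * (a i * z ^ (e i)) := by
  simp only [Pol, derivative_sum, eval_finsetSum, Finset.mul_sum, derivative_C_mul,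
    derivative_X_pow, eval_mul, eval_C, eval_pow, eval_X]
  refine Finset.sum_congr rfl fun i _ => ?_
  rcases Nat.eq_zero_or_pos (e i) with h | h
  · simp [h]
  · obtain ⟨n, hn⟩ := Nat.exists_eq_succ_of_ne_zero h.ne'
    rw [hn]
    simp only [Nat.succ_eq_add_one, Nat.add_sub_cancel]
    ring

/-- one step of the orbit -/
lemma step (ht : Tendsto t l atTop) (ha : ∀ i, Sz l t (fun ω => a ω i) (α i)) {z : Ω → ℂ} {y : ℝ}
    (hz : Sz l t z y) (he : Function.Injective e) (hy : ∀ k j, y ≠ xx e k j α) :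
    Sz l t (fun ω => (Pol e (a ω)).eval (z ω)) (F e α y) := by
  obtain ⟨m, hm⟩ := exists_eq_F (e := e) α y
  simp only [Pol_eval]
  have hterm : ∀ k, Sz l t (fun ω => a ω k * z ω ^ (e k)) (α k + (e k : ℝ) * y) :=
    fun k => (ha k).mul (hz.pow (e k))
  rw [hm]
  refine Sz.sum (u := fun k ω => a ω k * z ω ^ (e k)) ht (hterm m) ?_
  intro k hk
  refine (hterm k).ratio ht (hterm m) ?_
  rw [← hm]
  refine lt_of_le_of_ne (le_F α y k) ?_
  rw [hm]
  intro h
  apply hy k m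
  have hne : (e m : ℝ) - e k ≠ 0 := by
    intro h0
    apply hk
    apply he
    have : (e m : ℝ) = e k := by linarith
    exact_mod_cast this.symm
  unfold xx
  rw [eq_div_iff hne]
  linarith

lemma orbit (ht : Tendsto t l atTop) (ha : ∀ i, Sz l t (fun ω => a ω i) (α i)) {z : Ω → ℂ} {y : ℝ}
    (hz : Sz l t z y) (he : Function.Injective e)
    (hy : ∀ (m : ℕ) (k j : ι), (F e α)^[m] y ≠ xx e k j α) (m : ℕ) :
    Sz l t (fun ω => (fun w : ℂ => (Pol e (a ω)).eval w)^[m] (z ω)) ((F e α)^[m] y) := by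
  induction m with
  | zero => simpa using hz
  | succ m ih =>
    simp only [Function.iterate_succ_apply']
    exact step ht ha ih he (hy m)

/-- a trapping disc -/
lemma trap (ht : Tendsto t l atTop) (ha : ∀ i, Sz l t (fun ω => a ω i) (α i)) {X : ℝ}
    (hX : F e α X < X) : ∀ᶠ ω in l, ∀ w : ℂ, ‖w‖ ≤ Real.exp (t ω * X) →
      ‖(Pol e (a ω)).eval w‖ ≤ Real.exp (t ω * X) / 4 := by
  have h1 : ∀ i, ∀ᶠ ω in l, ‖a ω i‖ * Real.exp (t ω * X) ^ (e i) ≤
      Real.exp (t ω * X) / (4 * Fintype.card ι) := by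
    intro i
    have hF := lt_of_le_of_lt (le_F (e := e) α X i) hX
    have h2 : Tendsto (fun ω => Real.log ‖a ω i‖ / t ω + (e i : ℝ) * X +
        Real.log (4 * Fintype.card ι) / t ω) l (𝓝 (α i + (e i : ℝ) * X + 0)) :=
      ((ha i).2.add_const _).add (Tendsto.div_atTop tendsto_const_nhds ht)
    have h3 := h2.eventually_lt_const (show α i + (e i : ℝ) * X + 0 < X by linarith)
    filter_upwards [h3, (ha i).1, ht.eventually_gt_atTop 0] with ω h4 h5 h6
    have h7 : Real.log ‖a ω i‖ + (e i : ℝ) * (t ω * X) + Real.log (4 * Fintype.card ι) ≤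
        t ω * X := by
      have e1 : Real.log ‖a ω i‖ + (e i : ℝ) * (t ω * X) + Real.log (4 * Fintype.card ι) =
        (Real.log ‖a ω i‖ / t ω + (e i : ℝ) * X + Real.log (4 * Fintype.card ι) / t ω) * t ω := by
        field_simp
      rw [e1, mul_comm (t ω) X]
      exact mul_le_mul_of_nonneg_right h4.le h6.le
    have hc : (0 : ℝ) < 4 * Fintype.card ι := by
      have : (0 : ℝ) < Fintype.card ι := by exact_mod_cast Fintype.card_pos
      linarith
    rw [le_div_iff₀ hc]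
    have h8 := Real.exp_le_exp.2 h7
    rw [Real.exp_add, Real.exp_add, Real.exp_log (norm_pos_iff.2 h5), Real.exp_log hc] at h8
    refine le_trans (le_of_eq ?_) h8
    rw [← Real.exp_nat_mul]
  have h2 := (Filter.eventually_all).2 h1
  filter_upwards [h2] with ω h3 w hw
  rw [Pol_eval]
  have hc : (0 : ℝ) < Fintype.card ι := by exact_mod_cast Fintype.card_pos
  calc ‖∑ i, a ω i * w ^ (e i)‖ ≤ ∑ i, ‖a ω i * w ^ (e i)‖ := norm_sum_le _ _
    _ ≤ ∑ _i : ι, Real.exp (t ω * X) / (4 * Fintype.card ι) := by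
        refine Finset.sum_le_sum fun i _ => ?_
        rw [norm_mul, norm_pow]
        refine le_trans ?_ (h3 i)
        gcongr
    _ = Real.exp (t ω * X) / 4 := by
        rw [Finset.sum_const, Finset.card_univ, nsmul_eq_mul]
        field_simp

/-- the escape radius -/
lemma escape (ht : Tendsto t l atTop) (ha : ∀ i, Sz l t (fun ω => a ω i) (α i)) {d : ι}
    (hd : 2 ≤ e d) (hmax : ∀ k, k ≠ d → e k < e d) : ∃ X : ℝ, ∀ᶠ ω in l, ∀ w : ℂ,
      Real.exp (t ω * X) ≤ ‖w‖ → 2 * ‖w‖ ≤ ‖(Pol e (a ω)).eval w‖ := by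
  classical
  -- choose `X`
  have hex : ∃ X : ℝ, (0 < α d + ((e d : ℝ) - 1) * X) ∧ ∀ k, k ≠ d →
      α k - α d < ((e d : ℝ) - e k) * X := by
    have h1 : ∀ᶠ X : ℝ in atTop, 0 < α d + ((e d : ℝ) - 1) * X := by
      have hpos : (0 : ℝ) < (e d : ℝ) - 1 := by
        have : (2 : ℝ) ≤ e d := by exact_mod_cast hd
        linarith
      exact (tendsto_atTop_add_const_left _ _ (tendsto_id.const_mul_atTop hpos)).eventually_gt_atTop 0
    have h2 : ∀ᶠ X : ℝ in atTop, ∀ k, k ≠ d → α k - α d < ((e d : ℝ) - e k) * X := by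
      rw [Filter.eventually_all]
      intro k
      by_cases hk : k = d
      · exact Eventually.of_forall fun X h => absurd hk h
      · have hpos : (0 : ℝ) < (e d : ℝ) - e k := by
          have : (e k : ℝ) < e d := by exact_mod_cast hmax k hk
          linarith
        filter_upwards [(tendsto_id.const_mul_atTop hpos).eventually_gt_atTop (α k - α d)]
          with X hX _
        exact hX
    obtain ⟨X, hX⟩ := (h1.and h2).exists
    exact ⟨X, hX⟩
  obtain ⟨X, hX1, hX2⟩ := hex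
  refine ⟨X, ?_⟩
  have hc : (0 : ℝ) < Fintype.card ι := by exact_mod_cast Fintype.card_pos
  have hE1 : ∀ᶠ ω in l, 4 ≤ ‖a ω d‖ * Real.exp (t ω * X) ^ (e d - 1) := by
    have h2 : Tendsto (fun ω => t ω * (Real.log ‖a ω d‖ / t ω + ((e d : ℝ) - 1) * X)) l atTop :=
      ht.atTop_mul_pos hX1 ((ha d).2.add_const _)
    filter_upwards [h2.eventually_ge_atTop (Real.log 4), (ha d).1, ht.eventually_gt_atTop 0]
      with ω h3 h4 h5
    have e1 : t ω * (Real.log ‖a ω d‖ / t ω + ((e d : ℝ) - 1) * X) =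
        Real.log ‖a ω d‖ + ((e d - 1 : ℕ) : ℝ) * (t ω * X) := by
      rw [Nat.cast_sub (by omega)]
      push_cast
      field_simp
    rw [e1] at h3
    have h6 := Real.exp_le_exp.2 h3
    rw [Real.exp_log (by norm_num), Real.exp_add, Real.exp_log (norm_pos_iff.2 h4),
      Real.exp_nat_mul] at h6
    exact h6
  have hE2 : ∀ᶠ ω in l, ∀ k, k ≠ d → ‖a ω k‖ * (2 * Fintype.card ι) ≤
      ‖a ω d‖ * Real.exp (t ω * X) ^ (e d - e k) := by
    rw [Filter.eventually_all]
    intro k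
    by_cases hk : k = d
    · exact Eventually.of_forall fun ω h => absurd hk h
    have h2 : Tendsto (fun ω => t ω * (Real.log ‖a ω d‖ / t ω - Real.log ‖a ω k‖ / t ω +
        ((e d : ℝ) - e k) * X)) l atTop :=
      ht.atTop_mul_pos (by linarith [hX2 k hk] : 0 < α d - α k + ((e d : ℝ) - e k) * X)
        (((ha d).2.sub (ha k).2).add_const _)
    filter_upwards [h2.eventually_ge_atTop (Real.log (2 * Fintype.card ι)), (ha d).1, (ha k).1,
      ht.eventually_gt_atTop 0] with ω h3 h4 h5 h6 _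
    have e1 : t ω * (Real.log ‖a ω d‖ / t ω - Real.log ‖a ω k‖ / t ω +
        ((e d : ℝ) - e k) * X) =
        Real.log ‖a ω d‖ + ((e d - e k : ℕ) : ℝ) * (t ω * X) - Real.log ‖a ω k‖ := by
      rw [Nat.cast_sub (hmax k hk).le]
      field_simp
      ring
    rw [e1] at h3
    have h7 : Real.log ‖a ω k‖ + Real.log (2 * Fintype.card ι) ≤
      Real.log ‖a ω d‖ + ((e d - e k : ℕ) : ℝ) * (t ω * X) := by linarith
    have h6 := Real.exp_le_exp.2 h7
    rwa [Real.exp_add, Real.exp_log (norm_pos_iff.2 h5), Real.exp_log (by positivity),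
      Real.exp_add, Real.exp_log (norm_pos_iff.2 h4), Real.exp_nat_mul] at h6
  filter_upwards [hE1, hE2] with ω h1 h2 w hw
  have hw0 : 0 < ‖w‖ := lt_of_lt_of_le (Real.exp_pos _) hw
  rw [Pol_eval]
  have h3 : ∀ k, k ≠ d → ‖a ω k * w ^ (e k)‖ ≤ ‖a ω d * w ^ (e d)‖ / (2 * Fintype.card ι) := by
    intro k hk
    rw [le_div_iff₀ (by positivity), norm_mul, norm_mul, norm_pow, norm_pow]
    have h4 := h2 k hk
    have h5 : ‖a ω k‖ * (2 * Fintype.card ι) ≤ ‖a ω d‖ * ‖w‖ ^ (e d - e k) := by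
      refine h4.trans ?_
      gcongr
    calc ‖a ω k‖ * ‖w‖ ^ (e k) * (2 * Fintype.card ι)
        = (‖a ω k‖ * (2 * Fintype.card ι)) * ‖w‖ ^ (e k) := by ring
      _ ≤ (‖a ω d‖ * ‖w‖ ^ (e d - e k)) * ‖w‖ ^ (e k) := by gcongr
      _ = ‖a ω d‖ * ‖w‖ ^ (e d) := by
          rw [mul_assoc, ← pow_add, Nat.sub_add_cancel (hmax k hk).le]
  have h4 : ‖a ω d * w ^ (e d)‖ / 2 ≤ ‖∑ i, a ω i * w ^ (e i)‖ := by
    rw [← Finset.add_sum_erase _ _ (Finset.mem_univ d)]
    have h5 : ‖∑ k ∈ Finset.univ.erase d, a ω k * w ^ (e k)‖ ≤ ‖a ω d * w ^ (e d)‖ / 2 := by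
      calc ‖∑ k ∈ Finset.univ.erase d, a ω k * w ^ (e k)‖
          ≤ ∑ k ∈ Finset.univ.erase d, ‖a ω k * w ^ (e k)‖ := norm_sum_le _ _
        _ ≤ ∑ _k ∈ Finset.univ.erase d, ‖a ω d * w ^ (e d)‖ / (2 * Fintype.card ι) :=
            Finset.sum_le_sum fun k hk => h3 k (Finset.ne_of_mem_erase hk)
        _ ≤ ∑ _k : ι, ‖a ω d * w ^ (e d)‖ / (2 * Fintype.card ι) := by
            apply Finset.sum_le_sum_of_subset_of_nonneg (Finset.erase_subset _ _)
            intro i _ _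
            positivity
        _ = ‖a ω d * w ^ (e d)‖ / 2 := by
            rw [Finset.sum_const, Finset.card_univ, nsmul_eq_mul]
            field_simp
    have h6 := norm_sub_norm_le (a ω d * w ^ (e d)) (-(∑ k ∈ Finset.univ.erase d, a ω k * w ^ (e k)))
    rw [norm_neg, sub_neg_eq_add] at h6
    linarith
  refine le_trans ?_ h4
  rw [norm_mul, norm_pow]
  have h5 : 4 ≤ ‖a ω d‖ * ‖w‖ ^ (e d - 1) := by
    refine h1.trans ?_
    gcongr
  have h6 : ‖a ω d‖ * ‖w‖ ^ (e d) = (‖a ω d‖ * ‖w‖ ^ (e d - 1)) * ‖w‖ := by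
    rw [mul_assoc, ← pow_succ, Nat.sub_add_cancel (by omega)]
  rw [h6]
  nlinarith

open Pool.Agent.W751.CD in
/-- the fate of a point whose logarithmic size is a generic start value -/
lemma fate (ht : Tendsto t l atTop) (ha : ∀ i, Sz l t (fun ω => a ω i) (α i)) {z : Ω → ℂ} {y : ℝ}
    (hz : Sz l t z y) (he : Function.Injective e) (hy : ∀ (m : ℕ) (k j : ι), (F e α)^[m] y ≠ xx e k j α)
    {d : ι} (hd : 2 ≤ e d) (hmax : ∀ k, k ≠ d → e k < e d)
    (hdi : (∃ (m : ℕ) (X : ℝ), (F e α)^[m] y < X ∧ F e α X < X) ∨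
      Tendsto (fun m : ℕ => (F e α)^[m] y) atTop atTop) :
    ∀ᶠ ω in l, Esc (Pol e (a ω)) (z ω) ∨ Att (Pol e (a ω)) (z ω) := by
  have hEsc : ∀ (T : ℂ[X]) (m : ℕ) (w : ℂ), Esc T ((fun y : ℂ => T.eval y)^[m] w) → Esc T w := by
    intro T m
    induction m with
    | zero => intro w h; simpa using h
    | succ m ih =>
      intro w h
      rw [Function.iterate_succ_apply] at h
      exact (ih _ h).shift
  have hAtt : ∀ (T : ℂ[X]) (m : ℕ) (w : ℂ), Att T ((fun y : ℂ => T.eval y)^[m] w) → Att T w := by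
    intro T m
    induction m with
    | zero => intro w h; simpa using h
    | succ m ih =>
      intro w h
      rw [Function.iterate_succ_apply] at h
      exact (ih _ h).shift
  rcases hdi with ⟨m, X, hm, hX⟩ | h
  · have h1 := orbit ht ha hz he hy m
    have h2 : Tendsto (fun ω => Real.log ‖(fun w : ℂ => (Pol e (a ω)).eval w)^[m] (z ω)‖ / t ω +
        Real.log 2 / t ω) l (𝓝 ((F e α)^[m] y + 0)) :=
      h1.2.add (Tendsto.div_atTop tendsto_const_nhds ht)
    have h3 := h2.eventually_lt_const (show (F e α)^[m] y + 0 < X by linarith)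
    filter_upwards [trap ht ha hX, h1.1, h3, ht.eventually_gt_atTop 0] with ω h4 h5 h6 h7
    right
    apply hAtt _ m
    apply att_of_inner (Real.exp_pos (t ω * X)) h4
    rw [← add_div, div_lt_iff₀ h7] at h6
    have h8 := Real.exp_le_exp.2 h6.le
    rw [Real.exp_add, Real.exp_log (norm_pos_iff.2 h5), Real.exp_log (by norm_num),
      mul_comm X (t ω)] at h8
    linarith
  · obtain ⟨X, hX⟩ := escape (e := e) ht ha hd hmax
    obtain ⟨m, hm⟩ := (h.eventually_gt_atTop X).exists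
    have h1 := orbit ht ha hz he hy m
    have h3 := h1.2.eventually_const_lt hm
    filter_upwards [hX, h1.1, h3, ht.eventually_gt_atTop 0] with ω h4 h5 h6 h7
    left
    apply hEsc _ m
    apply esc_of_large (Real.exp_pos (t ω * X)) h4
    rw [lt_div_iff₀ h7] at h6
    have h8 := Real.exp_le_exp.2 h6.le
    rwa [Real.exp_log (norm_pos_iff.2 h5), mul_comm X (t ω)] at h8

end dyn

end Pool.Agent.TH639.LS
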