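import Mathlib
import Pool.Agent.TH639.LS.Lim

/-!
# The critical values of a polynomial with coefficients of generic logarithmic size
-/

set_option autoImplicit false

open Filter Topology MeasureTheory Polynomial

set_option linter.unusedSectionVars false

namespace Pool.Agent.TH639.LS

open Pool.Agent.W751.CD

variable {Ω ι : Type*} [Fintype ι] [Nonempty ι] {e : ι → ℕ} {l : Filter Ω} {t : Ω → ℝ}
  {a : Ω → ι → ℂ} {α : ι → ℝ}

/-- the constant in the comparison of the two dominant terms -/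
noncomputable def KK (e : ι → ℕ) : ℝ := (Fintype.card ι : ℝ) * ∑ k, (e k : ℝ)

/-- `c` is a critical point whose dominant terms are the `i`-th and the `j`-th one -/
def Dom (e : ι → ℕ) (a : ι → ℂ) (i j : ι) (c : ℂ) : Prop :=
  c ≠ 0 ∧ (derivative (Pol e a)).eval c = 0 ∧
    (∀ k, 1 ≤ e k → ‖a k * c ^ (e k)‖ ≤ ‖a j * c ^ (e j)‖) ∧
    ‖a j * c ^ (e j)‖ ≤ KK e * ‖a i * c ^ (e i)‖

lemma exists_dom {a : ι → ℂ} (ha : ∀ i, a i ≠ 0) (hex : ∃ k, 1 ≤ e k) {c : ℂ} (hc : c ≠ 0)
    (hcr : (derivative (Pol e a)).eval c = 0) :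
    ∃ i j : ι, i ≠ j ∧ 1 ≤ e i ∧ 1 ≤ e j ∧ Dom e a i j c := by
  classical
  set u : ι → ℂ := fun k => a k * c ^ (e k) with hu
  have hu0 : ∀ k, 0 < ‖u k‖ := fun k => norm_pos_iff.2 (mul_ne_zero (ha k) (pow_ne_zero _ hc))
  have hsum : ∑ k, (e k : ℂ) * u k = 0 := by
    rw [← Pol_deriv, hcr, mul_zero]
  -- the largest term among those with positive exponent
  have hne : (Finset.univ.filter fun k => 1 ≤ e k).Nonempty := by
    obtain ⟨k, hk⟩ := hex
    exact ⟨k, by simp [hk]⟩
  obtain ⟨j, hj, hjmax⟩ := Finset.exists_max_image _ (fun k => ‖u k‖) hne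
  rw [Finset.mem_filter] at hj
  have hj1 : (1 : ℝ) ≤ e j := by exact_mod_cast hj.2
  have h1 : (e j : ℂ) * u j = -∑ k ∈ Finset.univ.erase j, (e k : ℂ) * u k := by
    rw [← Finset.add_sum_erase _ _ (Finset.mem_univ j)] at hsum
    exact eq_neg_of_add_eq_zero_left hsum
  have h2 : (e j : ℝ) * ‖u j‖ ≤ ∑ k ∈ Finset.univ.erase j, (e k : ℝ) * ‖u k‖ := by
    have : (e j : ℝ) * ‖u j‖ = ‖(e j : ℂ) * u j‖ := by
      rw [norm_mul (e j : ℂ) (u j), Complex.norm_natCast]
    rw [this, h1, norm_neg]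
    refine (norm_sum_le _ _).trans (le_of_eq ?_)
    refine Finset.sum_congr rfl fun k _ => ?_
    rw [norm_mul, Complex.norm_natCast]
  have hpos : 0 < (e j : ℝ) * ‖u j‖ := mul_pos (by linarith) (hu0 j)
  have hne2 : (Finset.univ.erase j).Nonempty := by
    rw [Finset.nonempty_iff_ne_empty]
    intro h
    rw [h, Finset.sum_empty] at h2
    linarith
  obtain ⟨i, hi, himax⟩ := Finset.exists_max_image _ (fun k => (e k : ℝ) * ‖u k‖) hne2
  have h3 : ∑ k ∈ Finset.univ.erase j, (e k : ℝ) * ‖u k‖ ≤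
      (Fintype.card ι : ℝ) * ((e i : ℝ) * ‖u i‖) := by
    refine (Finset.sum_le_card_nsmul _ _ _ himax).trans ?_
    rw [nsmul_eq_mul]
    gcongr
    exact Finset.card_le_univ _
  have hi1 : 1 ≤ e i := by
    rw [Nat.one_le_iff_ne_zero]
    intro h
    rw [h] at h3
    simp only [Nat.cast_zero, zero_mul, mul_zero] at h3
    linarith
  refine ⟨i, j, Finset.ne_of_mem_erase hi, hi1, hj.2, hc, hcr, ?_, ?_⟩
  · intro k hk
    exact hjmax k (by simp [hk])
  · have h4 : (e i : ℝ) ≤ ∑ k, (e k : ℝ) :=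
      Finset.single_le_sum (f := fun k => (e k : ℝ)) (fun k _ => Nat.cast_nonneg _)
        (Finset.mem_univ i)
    calc ‖u j‖ ≤ (e j : ℝ) * ‖u j‖ := le_mul_of_one_le_left (hu0 j).le hj1
      _ ≤ (Fintype.card ι : ℝ) * ((e i : ℝ) * ‖u i‖) := h2.trans h3
      _ ≤ (Fintype.card ι : ℝ) * ((∑ k, (e k : ℝ)) * ‖u i‖) := by
          gcongr
      _ = KK e * ‖a i * c ^ (e i)‖ := by rw [KK]; ring

/-- the size of the critical points -/
lemma size_crit [l.NeBot] (ht : Tendsto t l atTop) (ha : ∀ i, Sz l t (fun ω => a ω i) (α i))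
    {c : Ω → ℂ} {i j : ι} (hij : e i ≠ e j) (hi0 : 1 ≤ e i)
    (hdom : ∀ᶠ ω in l, Dom e (a ω) i j (c ω)) :
    Sz l t c (xx e i j α) := by
  have hK : 0 < KK e ∨ KK e = 0 := by
    have h0 : 0 ≤ KK e := by unfold KK; positivity
    exact (lt_or_eq_of_le h0).imp id Eq.symm
  have hne0 : ∀ᶠ ω in l, c ω ≠ 0 := hdom.mono fun ω h => h.1
  refine ⟨hne0, ?_⟩
  have hK0 : 0 < KK e := by
    rcases hK with h | h
    · exact h
    · exfalso
      obtain ⟨ω, h1, h2⟩ := (hdom.and (ha j).1).exists
      have h3 := h1.2.2.2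
      rw [h, zero_mul] at h3
      have h4 : 0 < ‖a ω j * c ω ^ (e j)‖ := norm_pos_iff.2 (mul_ne_zero h2 (pow_ne_zero _ h1.1))
      linarith
  have hij' : (e j : ℝ) - e i ≠ 0 := by
    intro h
    apply hij
    have : (e i : ℝ) = e j := by linarith
    exact_mod_cast this
  -- the difference of the logarithms of the two terms
  set D : Ω → ℝ := fun ω => (Real.log ‖a ω j‖ / t ω - Real.log ‖a ω i‖ / t ω) +
    ((e j : ℝ) - e i) * (Real.log ‖c ω‖ / t ω) with hD
  have hD0 : Tendsto D l (𝓝 0) := by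
    have h1 : ∀ᶠ ω in l, 0 ≤ D ω ∧ D ω ≤ Real.log (KK e) / t ω := by
      filter_upwards [hdom, (ha i).1, (ha j).1, ht.eventually_gt_atTop 0] with ω h2 h3 h4 h5
      obtain ⟨h6, h7, h8, h9⟩ := h2
      have hci := norm_pos_iff.2 h6
      have e1 : ∀ k, a ω k ≠ 0 → Real.log ‖a ω k * c ω ^ (e k)‖ =
          Real.log ‖a ω k‖ + (e k : ℝ) * Real.log ‖c ω‖ := by
        intro k hk
        rw [norm_mul, norm_pow, Real.log_mul (norm_ne_zero_iff.2 hk) (pow_ne_zero _ hci.ne'),
          Real.log_pow]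
      have e2 : D ω = (Real.log ‖a ω j * c ω ^ (e j)‖ - Real.log ‖a ω i * c ω ^ (e i)‖) / t ω := by
        rw [e1 _ h3, e1 _ h4, hD]
        simp only
        field_simp
        ring
      have hip : 0 < ‖a ω i * c ω ^ (e i)‖ := norm_pos_iff.2 (mul_ne_zero h3 (pow_ne_zero _ h6))
      have hjp : 0 < ‖a ω j * c ω ^ (e j)‖ := norm_pos_iff.2 (mul_ne_zero h4 (pow_ne_zero _ h6))
      rw [e2]
      constructor
      · apply div_nonneg _ h5.le
        rw [sub_nonneg]
        exact Real.log_le_log hip (h8 i hi0)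
      · apply div_le_div_of_nonneg_right _ h5.le
        have := Real.log_le_log hjp h9
        rw [Real.log_mul hK0.ne' hip.ne'] at this
        linarith
    have h2 : Tendsto (fun ω => Real.log (KK e) / t ω) l (𝓝 0) :=
      Tendsto.div_atTop tendsto_const_nhds ht
    exact tendsto_of_tendsto_of_tendsto_of_le_of_le' tendsto_const_nhds h2
      (h1.mono fun ω h => h.1) (h1.mono fun ω h => h.2)
  have h3 : Tendsto (fun ω => (D ω - (Real.log ‖a ω j‖ / t ω - Real.log ‖a ω i‖ / t ω)) /
      ((e j : ℝ) - e i)) l (𝓝 ((0 - (α j - α i)) / ((e j : ℝ) - e i))) :=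
    (hD0.sub ((ha j).2.sub (ha i).2)).div_const _
  have e3 : (0 - (α j - α i)) / ((e j : ℝ) - e i) = xx e i j α := by
    unfold xx; congr 1; ring
  rw [e3] at h3
  refine h3.congr ?_
  intro ω
  rw [hD]
  simp only
  rw [add_sub_cancel_left, mul_div_cancel_left₀ _ hij']

/-- the size of the critical values -/
lemma size_value [l.NeBot] (ht : Tendsto t l atTop) (ha : ∀ i, Sz l t (fun ω => a ω i) (α i))
    (he : Function.Injective e) (hcol : ∀ i j k, i ≠ j → i ≠ k → j ≠ k →
      α i * ((e j : ℝ) - e k) + α j * ((e k : ℝ) - e i) + α k * ((e i : ℝ) - e j) ≠ 0)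
    {c : Ω → ℂ} {i j : ι} (hij : i ≠ j) (hi : 1 ≤ e i) (hj : 1 ≤ e j)
    (hdom : ∀ᶠ ω in l, Dom e (a ω) i j (c ω)) :
    Sz l t (fun ω => (Pol e (a ω)).eval (c ω)) (F e α (xx e i j α)) := by
  have hc := size_crit ht ha (fun h => hij (he h)) hi hdom
  set x := xx e i j α with hx
  have hij' : (e j : ℝ) - e i ≠ 0 := by
    intro h
    apply hij
    apply he
    have : (e i : ℝ) = e j := by linarith
    exact_mod_cast this
  have hw : α i + (e i : ℝ) * x = α j + (e j : ℝ) * x := by
    have h1 : x * ((e j : ℝ) - e i) = α i - α j := by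
      rw [hx, xx, div_mul_cancel₀ _ hij']
    linarith
  have hterm : ∀ k, Sz l t (fun ω => a ω k * c ω ^ (e k)) (α k + (e k : ℝ) * x) :=
    fun k => (ha k).mul (hc.pow (e k))
  have hle : ∀ k, 1 ≤ e k → α k + (e k : ℝ) * x ≤ α j + (e j : ℝ) * x := by
    intro k hk
    refine le_of_tendsto_of_tendsto (hterm k).2 (hterm j).2 ?_
    filter_upwards [hdom, (hterm k).1, ht.eventually_gt_atTop 0] with ω h1 h2 h3
    apply div_le_div_of_nonneg_right _ h3.le
    exact Real.log_le_log (norm_pos_iff.2 h2) (h1.2.2.1 k hk)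
  have hej : (e j : ℂ) ≠ 0 := by
    have : e j ≠ 0 := by omega
    exact_mod_cast this
  set b : ι → ℂ := fun k => 1 - (e k : ℂ) / (e j : ℂ) with hb
  have hbj : b j = 0 := by rw [hb]; simp only; rw [div_self hej, sub_self]
  have hbk : ∀ k, k ≠ j → b k ≠ 0 := by
    intro k hk h
    apply hk
    apply he
    have h1 : (e k : ℂ) / (e j : ℂ) = 1 := (sub_eq_zero.1 h).symm
    rw [div_eq_one_iff_eq hej] at h1
    exact_mod_cast h1
  have hval : ∀ᶠ ω in l, (Pol e (a ω)).eval (c ω) = ∑ k, b k * (a ω k * c ω ^ (e k)) := by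
    filter_upwards [hdom] with ω h1
    have h2 := Pol_deriv (e := e) (a ω) (c ω)
    rw [h1.2.1, mul_zero] at h2
    rw [Pol_eval]
    simp only [hb, sub_mul, one_mul, Finset.sum_sub_distrib]
    have h3 : ∑ k, (e k : ℂ) / (e j : ℂ) * (a ω k * c ω ^ (e k)) =
        (∑ k, (e k : ℂ) * (a ω k * c ω ^ (e k))) / (e j : ℂ) := by
      rw [Finset.sum_div]
      refine Finset.sum_congr rfl fun k _ => ?_
      ring
    rw [h3, ← h2, zero_div, sub_zero]
  -- the size of the sum
  have hS : Sz l t (fun ω => ∑ k, b k * (a ω k * c ω ^ (e k))) (F e α x) := by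
    obtain ⟨m₀, hm₀⟩ := exists_eq_F (e := e) α x
    by_cases hcase : F e α x = α j + (e j : ℝ) * x
    · have hbi : Sz l t (fun ω => b i * (a ω i * c ω ^ (e i))) (F e α x) := by
        have := (hterm i).const_mul ht (hbk i hij)
        rwa [hw, ← hcase] at this
      refine Sz.sum (u := fun k ω => b k * (a ω k * c ω ^ (e k))) ht hbi ?_
      intro k hk
      by_cases hkj : k = j
      · simp only [hkj, hbj, zero_mul, zero_div]
        exact tendsto_const_nhds
      · refine ((hterm k).const_mul ht (hbk k hkj)).ratio ht hbi ?_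
        refine lt_of_le_of_ne (le_F α x k) ?_
        intro h
        apply hcol i j k hij (Ne.symm hk) (Ne.symm hkj)
        rw [hcase] at h
        have h1 : α k = α j + (e j : ℝ) * x - (e k : ℝ) * x := by linarith
        have h2 : α i = α j + (e j : ℝ) * x - (e i : ℝ) * x := by linarith
        rw [h1, h2]
        ring
    · have hlt : α j + (e j : ℝ) * x < F e α x := lt_of_le_of_ne (le_F α x j) (Ne.symm hcase)
      have hem : e m₀ = 0 := by
        by_contra h
        have := hle m₀ (Nat.one_le_iff_ne_zero.2 h)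
        rw [← hm₀] at this
        linarith
      have hmj : m₀ ≠ j := by
        intro h
        rw [h] at hem
        omega
      have hbm : Sz l t (fun ω => b m₀ * (a ω m₀ * c ω ^ (e m₀))) (F e α x) := by
        have := (hterm m₀).const_mul ht (hbk m₀ hmj)
        rwa [← hm₀] at this
      refine Sz.sum (u := fun k ω => b k * (a ω k * c ω ^ (e k))) ht hbm ?_
      intro k hk
      by_cases hkj : k = j
      · simp only [hkj, hbj, zero_mul, zero_div]
        exact tendsto_const_nhds
      · refine ((hterm k).const_mul ht (hbk k hkj)).ratio ht hbm ?_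
        have hek : 1 ≤ e k := by
          rw [Nat.one_le_iff_ne_zero]
          intro h
          apply hk
          apply he
          rw [h, hem]
        exact lt_of_le_of_lt (hle k hek) hlt
  refine ⟨?_, hS.2.congr' ?_⟩
  · filter_upwards [hval, hS.1] with ω h1 h2
    rw [h1]; exact h2
  · filter_upwards [hval] with ω h1
    rw [h1]

lemma att_zero {a : ι → ℂ} (h0 : ∀ k, 1 ≤ e k) (hcr : (derivative (Pol e a)).eval 0 = 0) :
    Att (Pol e a) 0 := by
  have h1 : (Pol e a).eval 0 = 0 := by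
    rw [Pol_eval]
    refine Finset.sum_eq_zero fun k _ => ?_
    rw [zero_pow (by have := h0 k; omega), mul_zero]
  refine ⟨0, h1, ?_, ?_⟩
  · have : deriv (fun y : ℂ => (Pol e a).eval y) 0 = (derivative (Pol e a)).eval 0 :=
      Polynomial.deriv _
    rw [this, hcr]
    simp
  · have : ∀ k : ℕ, (fun y : ℂ => (Pol e a).eval y)^[k] 0 = 0 := by
      intro k
      exact Function.iterate_fixed (f := fun y : ℂ => (Pol e a).eval y) h1 k
    simp only [this]
    exact tendsto_const_nhds

/-- in a generic direction the polynomials are eventually hyperbolic -/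
theorem eventually_hyp (ht : Tendsto t l atTop)
    (ha : ∀ i, Sz l t (fun ω => a ω i) (α i)) (he : Function.Injective e) (hg : Gen e α)
    {d : ι} (hd : 2 ≤ e d) (hmax : ∀ k, k ≠ d → e k < e d) :
    ∀ᶠ ω in l, Hyp (Pol e (a ω)) := by
  classical
  -- the point zero
  have hzero : ∀ᶠ ω in l, (derivative (Pol e (a ω))).eval 0 = 0 →
      Esc (Pol e (a ω)) 0 ∨ Att (Pol e (a ω)) 0 := by
    by_cases h0 : ∃ k₀, e k₀ = 0
    · obtain ⟨k₀, hk₀⟩ := h0
      have hf := fate (e := e) ht ha (ha k₀) he (hg.c_orb k₀) hd hmax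
        (dichotomy (hg.c_fix k₀) (fun k _ => hg.c_fix k))
      filter_upwards [hf] with ω h1 _
      have e1 : (Pol e (a ω)).eval 0 = a ω k₀ := by
        rw [Pol_eval, Finset.sum_eq_single k₀]
        · rw [hk₀, pow_zero, mul_one]
        · intro k _ hk
          have : e k ≠ 0 := fun h => hk (he (by rw [h, hk₀]))
          rw [zero_pow this, mul_zero]
        · intro h; exact absurd (Finset.mem_univ _) h
      rcases h1 with h1 | h1
      · left
        apply Esc.shift
        rw [e1]; exact h1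
      · right
        apply Att.shift
        rw [e1]; exact h1
    · push Not at h0
      refine Eventually.of_forall fun ω hω => Or.inr (att_zero (fun k => ?_) hω)
      exact Nat.one_le_iff_ne_zero.2 (h0 k)
  -- the other critical points
  have hpair : ∀ p : ι × ι, ∀ᶠ ω in l, p.1 ≠ p.2 → 1 ≤ e p.1 → 1 ≤ e p.2 → ∀ c : ℂ,
      Dom e (a ω) p.1 p.2 c → Esc (Pol e (a ω)) c ∨ Att (Pol e (a ω)) c := by
    rintro ⟨i, j⟩
    simp only
    by_cases hij : i ≠ j
    swap
    · exact Eventually.of_forall fun ω h => absurd h hij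
    by_cases hi : 1 ≤ e i
    swap
    · exact Eventually.of_forall fun ω _ h => absurd h hi
    by_cases hj : 1 ≤ e j
    swap
    · exact Eventually.of_forall fun ω _ _ h => absurd h hj
    set l' : Filter (Ω × ℂ) := comap Prod.fst l ⊓ 𝓟 {p | Dom e (a p.1) i j p.2} with hl'
    have hmap : Tendsto Prod.fst l' l := tendsto_comap.mono_left inf_le_left
    have hdom : ∀ᶠ p in l', Dom e (a p.1) i j p.2 := by
      have : {p : Ω × ℂ | Dom e (a p.1) i j p.2} ∈ l' := mem_inf_of_right (mem_principal_self _)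
      exact this
    have key : ∀ᶠ p in l', Esc (Pol e (a p.1)) p.2 ∨ Att (Pol e (a p.1)) p.2 := by
      rcases l'.eq_or_neBot with hbot | hbot
      · rw [hbot]; exact eventually_bot
      · have ht' : Tendsto (fun p : Ω × ℂ => t p.1) l' atTop := ht.comp hmap
        have ha' : ∀ i, Sz l' (fun p : Ω × ℂ => t p.1) (fun p => a p.1 i) (α i) := fun i =>
          ⟨hmap.eventually (ha i).1, (ha i).2.comp hmap⟩
        have hv := size_value ht' ha' he hg.col hij hi hj hdom
        have hf := fate (e := e) ht' ha' hv he (hg.x_orb i j) hd hmax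
          (dichotomy (hg.x_fix i j) (fun k _ => hg.c_fix k))
        filter_upwards [hf] with p h1
        rcases h1 with h1 | h1
        · exact Or.inl h1.shift
        · exact Or.inr h1.shift
    rw [hl', eventually_inf_principal, eventually_comap] at key
    filter_upwards [key] with ω hω _ _ _ c hc
    exact hω (ω, c) rfl hc
  have hpair' := (Filter.eventually_all).2 hpair
  have hne : ∀ᶠ ω in l, ∀ i, a ω i ≠ 0 := (Filter.eventually_all).2 fun i => (ha i).1
  filter_upwards [hzero, hpair', hne] with ω h1 h2 h3 c hc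
  by_cases hc0 : c = 0
  · subst hc0
    exact h1 hc
  · obtain ⟨i, j, hij, hi, hj, hdom⟩ := exists_dom (e := e) h3 ⟨d, by omega⟩ hc0 hc
    exact h2 (i, j) hij hi hj c hdom

end Pool.Agent.TH639.LS
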