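import Mathlib
import Pool.Agent.TH639.LS.Crit

/-!
# Almost every direction: the statement with `δ` and `t₀`
-/

set_option autoImplicit false

open Polynomial Filter Topology MeasureTheory

namespace Pool.Agent.TH639.LS

theorem dir {ι : Type*} [Fintype ι] [Nonempty ι] {e : ι → ℕ} (hinj : Function.Injective e)
    {α : ι → ℝ} (hα : Gen e α) {d : ι} (hd2 : 2 ≤ e d) (hmax : ∀ k, k ≠ d → e k < e d) :
    ∃ δ : ℝ, 0 < δ ∧ ∃ t₀ : ℝ, ∀ t : ℝ, t₀ ≤ t → ∀ a : ι → ℂ,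
      (∀ i, a i ≠ 0) → (∀ i, |Real.log ‖a i‖ - t * α i| ≤ δ * t) →
        Pool.Agent.W751.CD.Hyp (Pol e a) := by
  have hnz : ∀ᶠ ω in ((comap Prod.fst atTop ⊓ comap (fun ω : ℝ × (ι → ℂ) => fun i =>
      Real.log ‖ω.2 i‖ / ω.1) (𝓝 α)) ⊓ 𝓟 {ω : ℝ × (ι → ℂ) | ∀ i, ω.2 i ≠ 0}),
      ∀ i, ω.2 i ≠ 0 := mem_inf_of_right (mem_principal_self _)
  have ht : Tendsto (fun ω : ℝ × (ι → ℂ) => ω.1) ((comap Prod.fst atTop ⊓
      comap (fun ω : ℝ × (ι → ℂ) => fun i =>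
      Real.log ‖ω.2 i‖ / ω.1) (𝓝 α)) ⊓ 𝓟 {ω : ℝ × (ι → ℂ) | ∀ i, ω.2 i ≠ 0}) atTop :=
    tendsto_comap.mono_left (inf_le_left.trans inf_le_left)
  have hgt : Tendsto (fun ω : ℝ × (ι → ℂ) => fun i =>
      Real.log ‖ω.2 i‖ / ω.1) ((comap Prod.fst atTop ⊓
      comap (fun ω : ℝ × (ι → ℂ) => fun i =>
      Real.log ‖ω.2 i‖ / ω.1) (𝓝 α)) ⊓ 𝓟 {ω : ℝ × (ι → ℂ) | ∀ i, ω.2 i ≠ 0}) (𝓝 α) :=
    tendsto_comap.mono_left (inf_le_left.trans inf_le_right)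
  have key := eventually_hyp (e := e) (a := fun ω : ℝ × (ι → ℂ) => ω.2) ht
    (fun i => ⟨hnz.mono fun ω h => h i, (tendsto_pi_nhds.1 hgt) i⟩) hinj hα hd2 hmax
  rw [eventually_inf_principal] at key
  have hbasis := ((atTop_basis (α := ℝ)).comap (Prod.fst (α := ℝ) (β := ι → ℂ))).inf
    ((Metric.nhds_basis_closedBall (x := α)).comap (fun ω : ℝ × (ι → ℂ) => fun i =>
      Real.log ‖ω.2 i‖ / ω.1))
  obtain ⟨⟨t₀, δ⟩, ⟨-, hδ⟩, hp⟩ := hbasis.eventually_iff.1 key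
  simp only at hδ hp
  refine ⟨δ, hδ, max t₀ 1, fun t htt a ha0 haδ => ?_⟩
  have ht0 : 0 < t := lt_of_lt_of_le one_pos ((le_max_right _ _).trans htt)
  refine hp (x := (t, a)) ⟨(le_max_left _ _).trans htt, ?_⟩ ha0
  rw [Set.mem_preimage, Metric.mem_closedBall, dist_pi_le_iff hδ.le]
  intro i
  rw [Real.dist_eq]
  have e1 : Real.log ‖a i‖ / t - α i = (Real.log ‖a i‖ - t * α i) / t := by field_simp
  rw [e1, abs_div, abs_of_pos ht0, div_le_iff₀ ht0]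
  exact haδ i

end Pool.Agent.TH639.LS
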